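import Mathlib

/-!
Project Z8D: from the short squares to the region `0 < |D| ≤ W ^ 24` (core).
-/

set_option autoImplicit false
set_option linter.all false

namespace Pool.Agent.Y845.Z8

open Finset

/-- the form -/
def D (a b : ℤ) : ℤ := (2 * a * b) ^ 4 * (a ^ 2 - b ^ 2) ^ 4 * ((2 * a * b) ^ 4 - (a ^ 2 - b ^ 2) ^ 4)

/-- the coefficients of the real linear factors -/
noncomputable def al : Fin 8 → ℝ := ![1, 0, 1, 1, 1, 1, 1, 1]
noncomputable def be : Fin 8 → ℝ := ![0, 1, -1, 1, -(1 + √2), -(1 - √2), 1 + √2, 1 - √2]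

/-- the real linear factors -/
noncomputable def lf (j : Fin 8) (a b : ℝ) : ℝ := al j * a + be j * b

lemma s2 : √2 ^ 2 = 2 := Real.sq_sqrt (by norm_num)
lemma s2l : 1.414 < √2 := by
  rw [Real.lt_sqrt (by norm_num)]; norm_num
lemma s2u : √2 < 1.415 := by
  rw [Real.sqrt_lt' (by norm_num)]; norm_num

lemma lf0 (a b : ℝ) : lf 0 a b = a := by simp [lf, al, be]
lemma lf1 (a b : ℝ) : lf 1 a b = b := by simp [lf, al, be]
lemma lf2 (a b : ℝ) : lf 2 a b = a - b := by simp [lf, al, be]; ring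
lemma lf3 (a b : ℝ) : lf 3 a b = a + b := by simp [lf, al, be]
lemma lf45 (a b : ℝ) : lf 4 a b * lf 5 a b = a ^ 2 - 2 * a * b - b ^ 2 := by
  have e4 : lf 4 a b = a - (1 + √2) * b := by simp [lf, al, be]; ring
  have e5 : lf 5 a b = a - (1 - √2) * b := by simp [lf, al, be]; ring
  rw [e4, e5]
  linear_combination (-b ^ 2) * s2
lemma lf67 (a b : ℝ) : lf 6 a b * lf 7 a b = a ^ 2 + 2 * a * b - b ^ 2 := by
  have e4 : lf 6 a b = a + (1 + √2) * b := by simp [lf, al, be]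
  have e5 : lf 7 a b = a + (1 - √2) * b := by simp [lf, al, be]
  rw [e4, e5]
  linear_combination (-b ^ 2) * s2

/-- the absolute value of the form for real arguments -/
noncomputable def DD (a b : ℝ) : ℝ :=
  16 * |lf 0 a b| ^ 4 * |lf 1 a b| ^ 4 * |lf 2 a b| ^ 4 * |lf 3 a b| ^ 4 *
    (|lf 4 a b| * |lf 5 a b|) * (|lf 6 a b| * |lf 7 a b|) * (a ^ 2 + b ^ 2) ^ 2

lemma DD_eq (a b : ℤ) : ((D a b).natAbs : ℝ) = DD a b := by
  have h1 : ((D a b).natAbs : ℝ) = |((D a b : ℤ) : ℝ)| := by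
    rw [← Int.cast_abs, Nat.cast_natAbs]
  rw [h1]
  have h2 : ((D a b : ℤ) : ℝ) = -(16 * lf 0 a b ^ 4 * lf 1 a b ^ 4 * lf 2 a b ^ 4 * lf 3 a b ^ 4 *
    (lf 4 a b * lf 5 a b) * (lf 6 a b * lf 7 a b) * ((a:ℝ) ^ 2 + b ^ 2) ^ 2) := by
    rw [lf45, lf67, lf0, lf1, lf2, lf3]
    unfold D
    push_cast
    ring
  have h3 : |(a:ℝ) ^ 2 + b ^ 2| = (a:ℝ) ^ 2 + b ^ 2 := abs_of_nonneg (by positivity)
  rw [h2, abs_neg]
  unfold DD
  simp only [abs_mul, abs_pow, h3]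
  rw [abs_of_pos (by norm_num : (0:ℝ) < 16)]

lemma coefb (j : Fin 8) : |be j| ≤ 3 := by
  have h1 := s2l
  have h2 := s2u
  rw [abs_le]
  fin_cases j <;> simp only [be, Fin.zero_eta, Fin.mk_one, Fin.reduceFinMk, Matrix.cons_val] <;>
    constructor <;> linarith
lemma coefa (j : Fin 8) : |al j| ≤ 1 := by
  rw [abs_le]
  fin_cases j <;> simp only [al, Fin.zero_eta, Fin.mk_one, Fin.reduceFinMk, Matrix.cons_val] <;>
    constructor <;> linarith
lemma res (i j : Fin 8) (h : i ≠ j) : 1 / 4 ≤ |al i * be j - al j * be i| := by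
  have h1 := s2l
  have h2 := s2u
  rw [le_abs]
  fin_cases i <;> fin_cases j <;>
    first
    | exact absurd rfl h
    | (simp only [al, be, Fin.zero_eta, Fin.mk_one, Fin.reduceFinMk, Matrix.cons_val]
       first
       | (left; linarith)
       | (right; linarith))
lemma al_one (i : Fin 8) (h : i ≠ 1) : al i = 1 := by
  fin_cases i <;>
    first
    | exact absurd rfl h
    | simp [al]

lemma rec1 {i j : Fin 8} (h : i ≠ j) (a b : ℝ) :
    |a| ≤ 12 * (|lf i a b| + |lf j a b|) ∧ |b| ≤ 12 * (|lf i a b| + |lf j a b|) := by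
  have hr := res i j h
  have h1 : be j * lf i a b - be i * lf j a b = (al i * be j - al j * be i) * a := by
    simp only [lf]; ring
  have h2 : al i * lf j a b - al j * lf i a b = (al i * be j - al j * be i) * b := by
    simp only [lf]; ring
  have e1 := abs_nonneg (lf i a b)
  have e2 := abs_nonneg (lf j a b)
  have g1 : |(al i * be j - al j * be i) * a| ≤ 3 * (|lf i a b| + |lf j a b|) := by
    rw [← h1]
    calc |be j * lf i a b - be i * lf j a b| ≤ |be j * lf i a b| + |be i * lf j a b| := abs_sub _ _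
      _ = |be j| * |lf i a b| + |be i| * |lf j a b| := by rw [abs_mul, abs_mul]
      _ ≤ 3 * |lf i a b| + 3 * |lf j a b| :=
          add_le_add (mul_le_mul_of_nonneg_right (coefb j) e1)
            (mul_le_mul_of_nonneg_right (coefb i) e2)
      _ = _ := by ring
  have g2 : |(al i * be j - al j * be i) * b| ≤ 3 * (|lf i a b| + |lf j a b|) := by
    rw [← h2]
    calc |al i * lf j a b - al j * lf i a b| ≤ |al i * lf j a b| + |al j * lf i a b| := abs_sub _ _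
      _ = |al i| * |lf j a b| + |al j| * |lf i a b| := by rw [abs_mul, abs_mul]
      _ ≤ 1 * |lf j a b| + 1 * |lf i a b| :=
          add_le_add (mul_le_mul_of_nonneg_right (coefa i) e2)
            (mul_le_mul_of_nonneg_right (coefa j) e1)
      _ ≤ _ := by linarith
  rw [abs_mul] at g1 g2
  have k1 := mul_le_mul_of_nonneg_right hr (abs_nonneg a)
  have k2 := mul_le_mul_of_nonneg_right hr (abs_nonneg b)
  constructor <;> linarith

lemma low (X : ℝ) (hX : 0 ≤ X) (j : Fin 8) (q1 q2 r1 r2 : ℝ) (h1 : |r1| ≤ X) (h2 : |r2| ≤ X)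
    (hq : 8 ≤ |lf j q1 q2|) : X * |lf j q1 q2| ≤ 2 * |lf j (X * q1 + r1) (X * q2 + r2)| := by
  have e : X * lf j q1 q2 = lf j (X * q1 + r1) (X * q2 + r2) - lf j r1 r2 := by
    simp only [lf]; ring
  have hb : |lf j r1 r2| ≤ 4 * X := by
    calc |lf j r1 r2| ≤ |al j * r1| + |be j * r2| := abs_add_le _ _
      _ = |al j| * |r1| + |be j| * |r2| := by rw [abs_mul, abs_mul]
      _ ≤ 1 * X + 3 * X := add_le_add (mul_le_mul (coefa j) h1 (abs_nonneg _) (by norm_num))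
            (mul_le_mul (coefb j) h2 (abs_nonneg _) (by norm_num))
      _ = _ := by ring
  have h3 : X * |lf j q1 q2| ≤ |lf j (X * q1 + r1) (X * q2 + r2)| + 4 * X := by
    calc X * |lf j q1 q2| = |X * lf j q1 q2| := by rw [abs_mul, abs_of_nonneg hX]
      _ = |lf j (X * q1 + r1) (X * q2 + r2) - lf j r1 r2| := by rw [e]
      _ ≤ |lf j (X * q1 + r1) (X * q2 + r2)| + |lf j r1 r2| := abs_sub _ _
      _ ≤ _ := by linarith
  have h4 : X * 8 ≤ X * |lf j q1 q2| := mul_le_mul_of_nonneg_left hq hX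
  linarith

lemma case1 (X : ℝ) (hX : 0 ≤ X) (q1 q2 r1 r2 : ℝ) (h1 : |r1| ≤ X) (h2 : |r2| ≤ X)
    (hq : ∀ j, 8 ≤ |lf j q1 q2|) :
    X ^ 24 * DD q1 q2 ≤ 2 ^ 24 * DD (X * q1 + r1) (X * q2 + r2) := by
  have hl : ∀ j, X * |lf j q1 q2| ≤ 2 * |lf j (X * q1 + r1) (X * q2 + r2)| := fun j =>
    low X hX j q1 q2 r1 r2 h1 h2 (hq j)
  set t1 := X * q1 + r1
  set t2 := X * q2 + r2
  have a0 : X * |q1| ≤ 2 * |t1| := by have := hl 0; rwa [lf0, lf0] at this
  have a1 : X * |q2| ≤ 2 * |t2| := by have := hl 1; rwa [lf1, lf1] at this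
  have hs : X ^ 2 * (q1 ^ 2 + q2 ^ 2) ≤ 4 * (t1 ^ 2 + t2 ^ 2) := by
    have b0 : (X * |q1|) ^ 2 ≤ (2 * |t1|) ^ 2 := by gcongr
    have b1 : (X * |q2|) ^ 2 ≤ (2 * |t2|) ^ 2 := by gcongr
    rw [mul_pow, mul_pow, sq_abs, sq_abs] at b0 b1
    linarith
  have e1 : X ^ 24 * DD q1 q2 = 16 * (X * |lf 0 q1 q2|) ^ 4 * (X * |lf 1 q1 q2|) ^ 4 *
      (X * |lf 2 q1 q2|) ^ 4 * (X * |lf 3 q1 q2|) ^ 4 *
      ((X * |lf 4 q1 q2|) * (X * |lf 5 q1 q2|)) * ((X * |lf 6 q1 q2|) * (X * |lf 7 q1 q2|)) *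
      (X ^ 2 * (q1 ^ 2 + q2 ^ 2)) ^ 2 := by
    unfold DD; ring
  have e2 : 2 ^ 24 * DD t1 t2 = 16 * (2 * |lf 0 t1 t2|) ^ 4 * (2 * |lf 1 t1 t2|) ^ 4 *
      (2 * |lf 2 t1 t2|) ^ 4 * (2 * |lf 3 t1 t2|) ^ 4 *
      ((2 * |lf 4 t1 t2|) * (2 * |lf 5 t1 t2|)) * ((2 * |lf 6 t1 t2|) * (2 * |lf 7 t1 t2|)) *
      (4 * (t1 ^ 2 + t2 ^ 2)) ^ 2 := by
    unfold DD; ring
  rw [e1, e2]
  have c0 := hl 0
  have c1 := hl 1
  have c2 := hl 2
  have c3 := hl 3
  have c4 := hl 4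
  have c5 := hl 5
  have c6 := hl 6
  have c7 := hl 7
  have n : ∀ j, 0 ≤ X * |lf j q1 q2| := fun j => by positivity
  have n0 := n 0
  have n1 := n 1
  have n2 := n 2
  have n3 := n 3
  have n4 := n 4
  have n5 := n 5
  have n6 := n 6
  have n7 := n 7
  have ns : 0 ≤ X ^ 2 * (q1 ^ 2 + q2 ^ 2) := by positivity
  gcongr

lemma int_ge (n : ℤ) (h : (n : ℝ) ≠ 0) : 1 ≤ |(n : ℝ)| := by
  have h1 : n ≠ 0 := by
    rintro rfl
    simp at h
  have := Int.one_le_abs h1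
  exact_mod_cast this

lemma DD_ones (a b : ℤ) (h : D a b ≠ 0) :
    (∀ j : Fin 8, j.val < 4 → 1 ≤ |lf j a b|) ∧ 1 ≤ |lf 4 a b| * |lf 5 a b| ∧
      1 ≤ |lf 6 a b| * |lf 7 a b| := by
  have h0 : DD a b ≠ 0 := by
    rw [← DD_eq]
    simpa using h
  have hne : ∀ j : Fin 8, lf j a b ≠ 0 := by
    intro j hj
    apply h0
    unfold DD
    fin_cases j <;>
      (simp only [Fin.zero_eta, Fin.mk_one, Fin.reduceFinMk] at hj
       rw [hj]
       simp)
  refine ⟨?_, ?_, ?_⟩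
  · intro j hj
    have h1 := hne j
    have hj' : j = 0 ∨ j = 1 ∨ j = 2 ∨ j = 3 := by omega
    rcases hj' with rfl | rfl | rfl | rfl
    · rw [lf0] at h1 ⊢
      exact int_ge a h1
    · rw [lf1] at h1 ⊢
      exact int_ge b h1
    · rw [lf2] at h1 ⊢
      have := int_ge (a - b) (by push_cast; exact h1)
      push_cast at this
      exact this
    · rw [lf3] at h1 ⊢
      have := int_ge (a + b) (by push_cast; exact h1)
      push_cast at this
      exact this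
  · rw [← abs_mul]
    have h1 := mul_ne_zero (hne 4) (hne 5)
    rw [lf45] at h1 ⊢
    have := int_ge (a ^ 2 - 2 * a * b - b ^ 2) (by push_cast; exact h1)
    push_cast at this
    exact this
  · rw [← abs_mul]
    have h1 := mul_ne_zero (hne 6) (hne 7)
    rw [lf67] at h1 ⊢
    have := int_ge (a ^ 2 + 2 * a * b - b ^ 2) (by push_cast; exact h1)
    push_cast at this
    exact this

lemma prod_low (a b : ℤ) (h : D a b ≠ 0) (Y : ℝ) (hY : 1 ≤ Y) (i : Fin 8)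
    (hj : ∀ j, j ≠ i → Y ≤ |lf j a b|) : Y ^ 20 ≤ DD a b := by
  obtain ⟨o1, o2, o3⟩ := DD_ones a b h
  have hY0 : 0 ≤ Y := by linarith
  have hs : Y ^ 2 ≤ (a:ℝ) ^ 2 + b ^ 2 := by
    by_cases hi : i = 0
    · have h1 := hj 1 (by rw [hi]; decide)
      rw [lf1] at h1
      have h2 : Y ^ 2 ≤ |(b:ℝ)| ^ 2 := by gcongr
      rw [sq_abs] at h2
      nlinarith [sq_nonneg (a:ℝ)]
    · have h1 := hj 0 (fun h => hi h.symm)
      rw [lf0] at h1
      have h2 : Y ^ 2 ≤ |(a:ℝ)| ^ 2 := by gcongr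
      rw [sq_abs] at h2
      nlinarith [sq_nonneg (b:ℝ)]
  have p20 : 0 ≤ Y ^ 20 := by positivity
  have p22 : Y ^ 20 ≤ Y ^ 22 := pow_le_pow_right₀ hY (by norm_num)
  have q0 := o1 0 (by decide)
  have q1 := o1 1 (by decide)
  have q2 := o1 2 (by decide)
  have q3 := o1 3 (by decide)
  have key : ∀ c0 c1 c2 c3 c4 c6 : ℝ, 0 ≤ c0 → 0 ≤ c1 → 0 ≤ c2 → 0 ≤ c3 → 0 ≤ c4 → 0 ≤ c6 →
      c0 ≤ |lf 0 a b| → c1 ≤ |lf 1 a b| → c2 ≤ |lf 2 a b| → c3 ≤ |lf 3 a b| →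
      c4 ≤ |lf 4 a b| * |lf 5 a b| → c6 ≤ |lf 6 a b| * |lf 7 a b| →
      16 * c0 ^ 4 * c1 ^ 4 * c2 ^ 4 * c3 ^ 4 * c4 * c6 * (Y ^ 2) ^ 2 ≤ DD a b := by
    intro c0 c1 c2 c3 c4 c6 _ _ _ _ _ _ _ _ _ _ _ _
    unfold DD
    gcongr
  have pr : ∀ j k : Fin 8, j ≠ i → k ≠ i → Y * Y ≤ |lf j a b| * |lf k a b| := fun j k h1 h2 =>
    mul_le_mul (hj j h1) (hj k h2) hY0 (abs_nonneg _)
  fin_cases i
  · have := key 1 Y Y Y (Y * Y) (Y * Y) (by norm_num) hY0 hY0 hY0 (by positivity) (by positivity)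
      q0 (hj 1 (by decide)) (hj 2 (by decide)) (hj 3 (by decide)) (pr 4 5 (by decide) (by decide))
      (pr 6 7 (by decide) (by decide))
    nlinarith
  · have := key Y 1 Y Y (Y * Y) (Y * Y) hY0 (by norm_num) hY0 hY0 (by positivity) (by positivity)
      (hj 0 (by decide)) q1 (hj 2 (by decide)) (hj 3 (by decide)) (pr 4 5 (by decide) (by decide))
      (pr 6 7 (by decide) (by decide))
    nlinarith
  · have := key Y Y 1 Y (Y * Y) (Y * Y) hY0 hY0 (by norm_num) hY0 (by positivity) (by positivity)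
      (hj 0 (by decide)) (hj 1 (by decide)) q2 (hj 3 (by decide)) (pr 4 5 (by decide) (by decide))
      (pr 6 7 (by decide) (by decide))
    nlinarith
  · have := key Y Y Y 1 (Y * Y) (Y * Y) hY0 hY0 hY0 (by norm_num) (by positivity) (by positivity)
      (hj 0 (by decide)) (hj 1 (by decide)) (hj 2 (by decide)) q3 (pr 4 5 (by decide) (by decide))
      (pr 6 7 (by decide) (by decide))
    nlinarith
  all_goals first
    | (have := key Y Y Y Y 1 (Y * Y) hY0 hY0 hY0 hY0 (by norm_num) (by positivity)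
        (hj 0 (by decide)) (hj 1 (by decide)) (hj 2 (by decide)) (hj 3 (by decide)) o2
        (pr 6 7 (by decide) (by decide))
       have e : 16 * Y ^ 4 * Y ^ 4 * Y ^ 4 * Y ^ 4 * 1 * (Y * Y) * (Y ^ 2) ^ 2 = 16 * Y ^ 22 := by
         ring
       rw [e] at this
       linarith)
    | (have := key Y Y Y Y (Y * Y) 1 hY0 hY0 hY0 hY0 (by positivity) (by norm_num)
        (hj 0 (by decide)) (hj 1 (by decide)) (hj 2 (by decide)) (hj 3 (by decide))
        (pr 4 5 (by decide) (by decide)) o3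
       have e : 16 * Y ^ 4 * Y ^ 4 * Y ^ 4 * Y ^ 4 * (Y * Y) * 1 * (Y ^ 2) ^ 2 = 16 * Y ^ 22 := by
         ring
       rw [e] at this
       linarith)

lemma case2 (X W : ℝ) (hX : 1 ≤ X) (hW : 1 ≤ W) (hXW : X ^ 24 ≤ 2 ^ 24 * W)
    (q1 q2 r1 r2 : ℝ) (h1 : |r1| ≤ X) (h2 : |r2| ≤ X) (a b : ℤ) (ha : (a:ℝ) = X * q1 + r1)
    (hb : (b:ℝ) = X * q2 + r2) (i : Fin 8) (hq : |lf i q1 q2| ≤ 8) (hD : D a b ≠ 0)
    (hDW : DD a b ≤ W ^ 24) (R : ℝ) (hR : R ≤ max |q1| |q2|) : X ^ 2 * R ≤ 1024 * W ^ 2 := by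
  have hX0 : 0 ≤ X := by linarith
  have hW0 : 0 ≤ W := by linarith
  have hX2W : X ≤ 2 * W := by
    have h3 : X ^ 24 ≤ (2 * W) ^ 24 := by
      rw [mul_pow]
      refine hXW.trans (mul_le_mul_of_nonneg_left ?_ (by positivity))
      calc W = W ^ 1 := (pow_one W).symm
        _ ≤ W ^ 24 := pow_le_pow_right₀ hW (by norm_num)
    exact (pow_le_pow_iff_left₀ hX0 (by positivity) (by norm_num)).1 h3
  by_cases hsm : R < 256
  · calc X ^ 2 * R ≤ X ^ 2 * 256 := by gcongr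
      _ ≤ (2 * W) ^ 2 * 256 := by gcongr
      _ = _ := by ring
  rw [not_lt] at hsm
  set Y := X * R / 64 with hYdef
  have hY1 : 1 ≤ Y := by
    rw [hYdef, le_div_iff₀ (by norm_num)]
    nlinarith
  have hj : ∀ j, j ≠ i → Y ≤ |lf j a b| := by
    intro j hji
    obtain ⟨b1, b2⟩ := rec1 (Ne.symm hji) q1 q2
    have b3 : R ≤ 12 * (|lf i q1 q2| + |lf j q1 q2|) := hR.trans (max_le b1 b2)
    have b4 : R / 32 ≤ |lf j q1 q2| := by linarith
    have b5 : 8 ≤ |lf j q1 q2| := by linarith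
    have b6 := low X hX0 j q1 q2 r1 r2 h1 h2 b5
    rw [← ha, ← hb] at b6
    have b7 : X * (R / 32) ≤ X * |lf j q1 q2| := mul_le_mul_of_nonneg_left b4 hX0
    rw [hYdef]
    linarith
  have h20 := (prod_low a b hD Y hY1 i hj).trans hDW
  have hX20 : X ^ 20 ≤ 2 ^ 24 * W := (pow_le_pow_right₀ hX (by norm_num)).trans hXW
  have hfin : (X * Y) ^ 20 ≤ (4 * W ^ 2) ^ 20 := by
    calc (X * Y) ^ 20 = X ^ 20 * Y ^ 20 := mul_pow _ _ _
      _ ≤ (2 ^ 24 * W) * W ^ 24 := mul_le_mul hX20 h20 (by positivity) (by positivity)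
      _ = 2 ^ 24 * W ^ 25 := by ring
      _ ≤ 2 ^ 40 * W ^ 40 :=
          mul_le_mul (pow_le_pow_right₀ (by norm_num) (by norm_num))
            (pow_le_pow_right₀ hW (by norm_num)) (by positivity) (by positivity)
      _ = _ := by ring
  have h5 : X * Y ≤ 4 * W ^ 2 :=
    (pow_le_pow_iff_left₀ (by positivity) (by positivity) (by norm_num)).1 hfin
  have h6 : X * Y = X ^ 2 * R / 64 := by rw [hYdef]; ring
  rw [h6] at h5
  nlinarith [sq_nonneg W]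

/-- the number of the points of a strip -/
lemma strip (i : Fin 8) (R : ℕ) (Q : Finset (ℤ × ℤ))
    (hQ : ∀ q ∈ Q, |lf i q.1 q.2| ≤ 8 ∧ |q.1| ≤ R ∧ |q.2| ≤ R) :
    Q.card ≤ 18 * (2 * R + 1) := by
  have hc : (Icc (-(R : ℤ)) R).card = 2 * R + 1 := by rw [Int.card_Icc]; omega
  have hc2 : (Icc (-9 : ℤ) 8).card = 18 := by decide
  by_cases hi : i = 1
  · subst hi
    calc Q.card ≤ ((Icc (-9 : ℤ) 8) ×ˢ (Icc (-(R : ℤ)) R)).card := by
          refine Finset.card_le_card_of_injOn (fun q : ℤ × ℤ => (q.2, q.1)) ?_ ?_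
          · intro q hq
            obtain ⟨a, b, c⟩ := hQ q hq
            rw [lf1, abs_le] at a
            have a1 : (-8 : ℤ) ≤ q.2 := by exact_mod_cast a.1
            have a2 : q.2 ≤ (8 : ℤ) := by exact_mod_cast a.2
            rw [abs_le] at b
            simp only [coe_product, Set.mem_prod, coe_Icc, Set.mem_Icc]
            exact ⟨⟨by omega, a2⟩, b⟩
          · intro p _ q _ hpq
            simp only [Prod.mk.injEq] at hpq
            exact Prod.ext hpq.2 hpq.1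
      _ = _ := by rw [card_product, hc, hc2]
  · have ha := al_one i hi
    calc Q.card ≤ ((Icc (-9 : ℤ) 8) ×ˢ (Icc (-(R : ℤ)) R)).card := by
          refine Finset.card_le_card_of_injOn
            (fun q : ℤ × ℤ => (q.1 + ⌊be i * (q.2 : ℝ)⌋, q.2)) ?_ ?_
          · intro q hq
            obtain ⟨a, b, c⟩ := hQ q hq
            unfold lf at a
            rw [ha, one_mul, abs_le] at a
            have f1 := Int.floor_le (be i * (q.2 : ℝ))
            have f2 := Int.lt_floor_add_one (be i * (q.2 : ℝ))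
            have a1 : (-9 : ℤ) ≤ q.1 + ⌊be i * (q.2 : ℝ)⌋ := by
              have : (-9 : ℝ) ≤ (q.1 : ℝ) + (⌊be i * (q.2 : ℝ)⌋ : ℤ) := by linarith
              exact_mod_cast this
            have a2 : q.1 + ⌊be i * (q.2 : ℝ)⌋ ≤ 8 := by
              have : (q.1 : ℝ) + (⌊be i * (q.2 : ℝ)⌋ : ℤ) ≤ (8 : ℝ) := by linarith
              exact_mod_cast this
            rw [abs_le] at c
            simp only [coe_product, Set.mem_prod, coe_Icc, Set.mem_Icc]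
            exact ⟨⟨a1, a2⟩, c⟩
          · intro p _ q _ hpq
            simp only [Prod.mk.injEq] at hpq
            obtain ⟨h1, h2⟩ := hpq
            rw [h2] at h1
            exact Prod.ext (by omega) h2
      _ = _ := by rw [card_product, hc, hc2]

/-- the base point of the square of `t` -/
def kap (X : ℕ) (t : ℤ × ℤ) : ℤ × ℤ := ((t.1 - 1) / X, (t.2 - 1) / X)

lemma kap_spec (X : ℕ) (hX : 1 ≤ X) (t : ℤ × ℤ) : ∃ r1 r2 : ℤ, (1 ≤ r1 ∧ r1 ≤ X) ∧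
    (1 ≤ r2 ∧ r2 ≤ X) ∧ t.1 = X * (kap X t).1 + r1 ∧ t.2 = X * (kap X t).2 + r2 := by
  have hX' : (0 : ℤ) < X := by exact_mod_cast hX
  refine ⟨(t.1 - 1) % X + 1, (t.2 - 1) % X + 1, ?_, ?_, ?_, ?_⟩
  · have := Int.emod_nonneg (t.1 - 1) hX'.ne'
    have := Int.emod_lt_of_pos (t.1 - 1) hX'
    omega
  · have := Int.emod_nonneg (t.2 - 1) hX'.ne'
    have := Int.emod_lt_of_pos (t.2 - 1) hX'
    omega
  · have := Int.mul_ediv_add_emod (t.1 - 1) X
    simp only [kap]; linarith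
  · have := Int.mul_ediv_add_emod (t.2 - 1) X
    simp only [kap]; linarith

lemma fib (g : ℤ × ℤ → ℝ) (hg : ∀ t, 0 ≤ g t) (X : ℕ) (hX : 1 ≤ X) (S : Finset (ℤ × ℤ))
    (q : ℤ × ℤ) :
    ∑ t ∈ S.filter (fun t => kap X t = q), g t ≤
      ∑ t ∈ Icc 1 X ×ˢ Icc 1 X, g (X * q.1 + (t.1 : ℤ), X * q.2 + (t.2 : ℤ)) := by
  have hinj : Set.InjOn (fun t : ℕ × ℕ => ((X * q.1 + (t.1 : ℤ), X * q.2 + (t.2 : ℤ)) : ℤ × ℤ))
      ((Icc 1 X ×ˢ Icc 1 X : Finset (ℕ × ℕ)) : Set (ℕ × ℕ)) := by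
    intro a _ b _ hab
    simp only [Prod.mk.injEq] at hab
    exact Prod.ext (by omega) (by omega)
  rw [← Finset.sum_image hinj]
  refine Finset.sum_le_sum_of_subset_of_nonneg ?_ (fun t _ _ => hg t)
  intro t ht
  rw [mem_filter] at ht
  obtain ⟨r1, r2, h1, h2, e1, e2⟩ := kap_spec X hX t
  rw [ht.2] at e1 e2
  rw [mem_image]
  refine ⟨(r1.toNat, r2.toNat), ?_, ?_⟩
  · simp only [mem_product, mem_Icc]; omega
  · have a1 : ((r1.toNat : ℕ) : ℤ) = r1 := Int.toNat_of_nonneg (by omega)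
    have a2 : ((r2.toNat : ℕ) : ℤ) = r2 := Int.toNat_of_nonneg (by omega)
    simp only [a1, a2]
    exact Prod.ext e1.symm e2.symm

lemma kap_real (X : ℕ) (hX : 1 ≤ X) (t : ℤ × ℤ) : ∃ r1 r2 : ℝ, |r1| ≤ X ∧ |r2| ≤ X ∧
    (t.1 : ℝ) = X * ((kap X t).1 : ℝ) + r1 ∧ (t.2 : ℝ) = X * ((kap X t).2 : ℝ) + r2 := by
  obtain ⟨r1, r2, h1, h2, e1, e2⟩ := kap_spec X hX t
  have hr : ∀ r : ℤ, 1 ≤ r ∧ r ≤ X → |(r : ℝ)| ≤ X := by
    intro r hr
    have h3 : (0:ℝ) ≤ r := by exact_mod_cast (by omega : (0:ℤ) ≤ r)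
    rw [abs_of_nonneg h3]
    exact_mod_cast hr.2
  exact ⟨r1, r2, hr r1 h1, hr r2 h2, by exact_mod_cast e1, by exact_mod_cast e2⟩

/-- the number of the squares -/
lemma count (C1 : ℕ)
    (hC1 : ∀ V : ℕ, 1 ≤ V → ∀ S : Finset (ℤ × ℤ),
      (∀ t ∈ S, D t.1 t.2 ≠ 0 ∧ (D t.1 t.2).natAbs ≤ V ^ 24) → S.card ≤ C1 * V ^ 2)
    (X W : ℕ) (hX : 1 ≤ X) (hW : 1 ≤ W) (hX2W : X ≤ 2 * W) (hXW : X ^ 24 ≤ 2 ^ 24 * W)
    (S : Finset (ℤ × ℤ)) (hS : ∀ t ∈ S, D t.1 t.2 ≠ 0 ∧ (D t.1 t.2).natAbs ≤ W ^ 24) :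
    (S.image (kap X)).card * X ^ 2 ≤ (16 * C1 + 8 * 36936) * W ^ 2 := by
  classical
  have hX1r : (1:ℝ) ≤ X := by exact_mod_cast hX
  have hW1r : (1:ℝ) ≤ W := by exact_mod_cast hW
  have hXWr : (X:ℝ) ^ 24 ≤ 2 ^ 24 * W := by exact_mod_cast hXW
  have hDW : ∀ t ∈ S, DD t.1 t.2 ≤ (W:ℝ) ^ 24 := by
    intro t ht
    rw [← DD_eq]
    exact_mod_cast (hS t ht).2
  set Q := S.image (kap X) with hQ
  set Q1 := Q.filter (fun q => ∀ j, 8 ≤ |lf j q.1 q.2|) with hQ1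
  set Q2 : Fin 8 → Finset (ℤ × ℤ) := fun i => Q.filter (fun q => |lf i q.1 q.2| ≤ 8) with hQ2
  have hcov : Q ⊆ Q1 ∪ univ.biUnion Q2 := by
    intro q hq
    by_cases hall : ∀ j, 8 ≤ |lf j q.1 q.2|
    · exact mem_union_left _ (mem_filter.mpr ⟨hq, hall⟩)
    · push Not at hall
      obtain ⟨i, hi⟩ := hall
      exact mem_union_right _ (mem_biUnion.mpr ⟨i, mem_univ i, mem_filter.mpr ⟨hq, hi.le⟩⟩)
  have hcard : Q.card ≤ Q1.card + ∑ i, (Q2 i).card :=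
    (card_le_card hcov).trans ((card_union_le _ _).trans
      (Nat.add_le_add_left card_biUnion_le _))
  -- case 1
  have c1 : Q1.card * X ^ 2 ≤ 16 * C1 * W ^ 2 := by
    set V := 2 * W / X + 1 with hV
    have hV1 : 2 * W ≤ V * X := by
      have := Nat.lt_div_mul_add (a := 2 * W) (b := X) (by omega)
      rw [hV, add_mul, one_mul]; omega
    have hV2 : V * X ≤ 4 * W := by
      have := Nat.div_mul_le_self (2 * W) X
      rw [hV, add_mul, one_mul]; omega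
    have h1 : Q1.card ≤ C1 * V ^ 2 := by
      refine hC1 V (Nat.succ_pos _) Q1 (fun q hq => ?_)
      rw [hQ1, mem_filter] at hq
      obtain ⟨hqQ, hq2⟩ := hq
      rw [hQ, mem_image] at hqQ
      obtain ⟨t, htS, rfl⟩ := hqQ
      obtain ⟨r1, r2, b1, b2, e1, e2⟩ := kap_real X hX t
      have h3 := case1 X (by positivity) _ _ r1 r2 b1 b2 hq2
      rw [← e1, ← e2] at h3
      have hV1r : (2:ℝ) * W ≤ V * X := by exact_mod_cast hV1
      have h4 : (X:ℝ) ^ 24 * DD (kap X t).1 (kap X t).2 ≤ (X:ℝ) ^ 24 * (V:ℝ) ^ 24 := by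
        calc (X:ℝ) ^ 24 * DD (kap X t).1 (kap X t).2 ≤ 2 ^ 24 * DD t.1 t.2 := h3
          _ ≤ 2 ^ 24 * (W:ℝ) ^ 24 := mul_le_mul_of_nonneg_left (hDW t htS) (by positivity)
          _ = (2 * W) ^ 24 := (mul_pow _ _ _).symm
          _ ≤ (V * X) ^ 24 := pow_le_pow_left₀ (by positivity) hV1r _
          _ = _ := by rw [mul_pow, mul_comm]
      have h5 : DD (kap X t).1 (kap X t).2 ≤ (V:ℝ) ^ 24 :=
        le_of_mul_le_mul_left h4 (by positivity)
      refine ⟨?_, ?_⟩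
      · intro h0
        have h6 : (0:ℝ) < DD (kap X t).1 (kap X t).2 := by
          have hp : ∀ j, 0 < |lf j (kap X t).1 (kap X t).2| := fun j => by
            have := hq2 j
            linarith
          have p0 := hp 0
          have p1 := hp 1
          have p2 := hp 2
          have p3 := hp 3
          have p4 := hp 4
          have p5 := hp 5
          have p6 := hp 6
          have p7 := hp 7
          have ps : (0:ℝ) < ((kap X t).1 : ℝ) ^ 2 + ((kap X t).2 : ℝ) ^ 2 := by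
            rw [lf0] at p0
            have := abs_pos.1 p0
            positivity
          unfold DD
          positivity
        rw [← DD_eq, h0] at h6
        simp at h6
      · rw [← DD_eq] at h5
        exact_mod_cast h5
    calc Q1.card * X ^ 2 ≤ C1 * V ^ 2 * X ^ 2 := Nat.mul_le_mul_right _ h1
      _ = C1 * (V * X) ^ 2 := by ring
      _ ≤ C1 * (4 * W) ^ 2 := Nat.mul_le_mul_left _ (Nat.pow_le_pow_left hV2 2)
      _ = _ := by ring
  -- case 2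
  have c2 : ∀ i, (Q2 i).card * X ^ 2 ≤ 36936 * W ^ 2 := by
    intro i
    set R0 := 1024 * W ^ 2 / X ^ 2 with hR0
    have h1 : (Q2 i).card ≤ 18 * (2 * R0 + 1) := by
      refine strip i R0 (Q2 i) (fun q hq => ?_)
      rw [hQ2] at hq
      simp only [mem_filter] at hq
      obtain ⟨hqQ, hq2⟩ := hq
      rw [hQ, mem_image] at hqQ
      obtain ⟨t, htS, rfl⟩ := hqQ
      obtain ⟨r1, r2, b1, b2, e1, e2⟩ := kap_real X hX t
      have hD := (hS t htS).1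
      have h3 := case2 X W hX1r hW1r hXWr _ _ r1 r2 b1 b2 t.1 t.2 e1 e2 i hq2 hD (hDW t htS)
        ((max (kap X t).1.natAbs (kap X t).2.natAbs : ℕ) : ℝ) (by
          rw [Nat.cast_max, Nat.cast_natAbs, Nat.cast_natAbs, Int.cast_abs, Int.cast_abs])
      have hle : max (kap X t).1.natAbs (kap X t).2.natAbs ≤ R0 := by
        rw [hR0, Nat.le_div_iff_mul_le (by positivity)]
        have : X ^ 2 * max (kap X t).1.natAbs (kap X t).2.natAbs ≤ 1024 * W ^ 2 := by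
          exact_mod_cast h3
        rwa [mul_comm]
      refine ⟨hq2, ?_, ?_⟩
      · have h' := (le_max_left _ _).trans hle
        zify at h'; exact h'
      · have h' := (le_max_right _ _).trans hle
        zify at h'; exact h'
    have h2 : R0 * X ^ 2 ≤ 1024 * W ^ 2 := Nat.div_mul_le_self _ _
    have h3 : X ^ 2 ≤ 4 * W ^ 2 := by
      calc X ^ 2 ≤ (2 * W) ^ 2 := Nat.pow_le_pow_left hX2W 2
        _ = 4 * W ^ 2 := by ring
    calc (Q2 i).card * X ^ 2 ≤ 18 * (2 * R0 + 1) * X ^ 2 := Nat.mul_le_mul_right _ h1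
      _ = 18 * (2 * (R0 * X ^ 2) + X ^ 2) := by ring
      _ ≤ 18 * (2 * (1024 * W ^ 2) + 4 * W ^ 2) := by gcongr
      _ = _ := by ring
  calc Q.card * X ^ 2 ≤ (Q1.card + ∑ i, (Q2 i).card) * X ^ 2 := Nat.mul_le_mul_right _ hcard
    _ = Q1.card * X ^ 2 + ∑ i, (Q2 i).card * X ^ 2 := by rw [add_mul, Finset.sum_mul]
    _ ≤ 16 * C1 * W ^ 2 + ∑ _i : Fin 8, 36936 * W ^ 2 :=
        Nat.add_le_add c1 (Finset.sum_le_sum fun i _ => c2 i)
    _ = _ := by
        rw [Finset.sum_const, card_univ, smul_eq_mul, Fintype.card_fin]; ring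

lemma root (d W : ℕ) (hd : 1 ≤ d) (hW : 1 ≤ W) :
    ∃ X : ℕ, 2 ≤ X ∧ W < X ^ d ∧ X ^ d ≤ 2 ^ d * W := by
  have hex : ∃ n : ℕ, W < n ^ d := ⟨W + 1, by
    calc W < W + 1 := Nat.lt_succ_self W
      _ = (W + 1) ^ 1 := by ring
      _ ≤ (W + 1) ^ d := Nat.pow_le_pow_right (by omega) hd⟩
  classical
  set X := Nat.find hex with hX
  have h1 : W < X ^ d := Nat.find_spec hex
  have h2 : 2 ≤ X := by
    by_contra hlt
    have : X = 0 ∨ X = 1 := by omega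
    rcases this with h | h
    · rw [h, zero_pow (by omega)] at h1; omega
    · rw [h, one_pow] at h1; omega
  have h3 : ¬ W < (X - 1) ^ d := Nat.find_min hex (by omega)
  refine ⟨X, h2, h1, ?_⟩
  calc X ^ d ≤ (2 * (X - 1)) ^ d := Nat.pow_le_pow_left (by omega) d
    _ = 2 ^ d * (X - 1) ^ d := mul_pow _ _ _
    _ ≤ 2 ^ d * W := Nat.mul_le_mul_left _ (by omega)

/-- a crude bound for the coordinates -/
lemma crude (a b : ℤ) (h : D a b ≠ 0) : a.natAbs ≤ (D a b).natAbs ∧ b.natAbs ≤ (D a b).natAbs := by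
  have h1 : (2 * a * b) ^ 4 ∣ D a b :=
    ⟨(a ^ 2 - b ^ 2) ^ 4 * ((2 * a * b) ^ 4 - (a ^ 2 - b ^ 2) ^ 4), by unfold D; ring⟩
  have h2 : ((2 * a * b) ^ 4).natAbs ≤ (D a b).natAbs := Int.natAbs_le_of_dvd_ne_zero h1 h
  have h3 : (2 * a * b) ^ 4 ≠ 0 := by
    intro h0
    apply h
    unfold D
    rw [h0, zero_mul, zero_mul]
  have ha : a ≠ 0 := by
    rintro rfl
    simp at h3
  have hb : b ≠ 0 := by
    rintro rfl
    simp at h3
  have h4 : a.natAbs ≤ ((2 * a * b) ^ 4).natAbs :=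
    Int.natAbs_le_of_dvd_ne_zero ⟨2 * b * (2 * a * b) ^ 3, by ring⟩ h3
  have h5 : b.natAbs ≤ ((2 * a * b) ^ 4).natAbs :=
    Int.natAbs_le_of_dvd_ne_zero ⟨2 * a * (2 * a * b) ^ 3, by ring⟩ h3
  exact ⟨h4.trans h2, h5.trans h2⟩

theorem cov_core (h : ∃ C : ℕ, ∀ V : ℕ, 1 ≤ V → ∀ S : Finset (ℤ × ℤ),
      (∀ t ∈ S, D t.1 t.2 ≠ 0 ∧ (D t.1 t.2).natAbs ≤ V ^ 24) → S.card ≤ C * V ^ 2)
    (g : ℤ × ℤ → ℝ) (hg0 : ∀ t, 0 ≤ g t)
    (hg : ∀ B : ℕ, ∃ C : ℝ, ∀ (N1 N2 : ℤ) (X : ℕ), 1 ≤ X → N1.natAbs ≤ X ^ B → N2.natAbs ≤ X ^ B →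
      ∑ t ∈ Icc 1 X ×ˢ Icc 1 X, g (N1 + (t.1 : ℤ), N2 + (t.2 : ℤ)) ≤ C * X ^ 2) :
    ∃ C : ℝ, 0 ≤ C ∧ ∀ W : ℕ, 1 ≤ W → ∀ S : Finset (ℤ × ℤ),
      (∀ t ∈ S, D t.1 t.2 ≠ 0 ∧ (D t.1 t.2).natAbs ≤ W ^ 24) → ∑ t ∈ S, g t ≤ C * (W : ℝ) ^ 2 := by
  obtain ⟨C1, hC1⟩ := h
  obtain ⟨CB, hCB⟩ := hg 577
  set C2 : ℕ := 16 * C1 + 8 * 36936 with hC2
  refine ⟨|CB| * C2, by positivity, fun W hW S hS => ?_⟩
  obtain ⟨X, hX2, hWX, hXW⟩ := root 24 W (by norm_num) hW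
  have hX1 : 1 ≤ X := by omega
  have hX2W : X ≤ 2 * W := by
    have : X ^ 24 ≤ (2 * W) ^ 24 := by
      rw [mul_pow]
      refine hXW.trans (Nat.mul_le_mul_left _ ?_)
      calc W = W ^ 1 := (pow_one W).symm
        _ ≤ W ^ 24 := Nat.pow_le_pow_right hW (by norm_num)
    exact (Nat.pow_le_pow_iff_left (by norm_num)).mp this
  have hcount := count C1 hC1 X W hX1 hW hX2W hXW S hS
  have hbase : ∀ q ∈ S.image (kap X), (X * q.1).natAbs ≤ X ^ 577 ∧ (X * q.2).natAbs ≤ X ^ 577 := by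
    intro q hq
    rw [mem_image] at hq
    obtain ⟨t, htS, rfl⟩ := hq
    obtain ⟨r1, r2, b1, b2, e1, e2⟩ := kap_spec X hX1 t
    obtain ⟨hS0, hS'⟩ := hS t htS
    obtain ⟨k1, k2⟩ := crude t.1 t.2 hS0
    have hbig : (D t.1 t.2).natAbs ≤ X ^ 576 := by
      calc (D t.1 t.2).natAbs ≤ W ^ 24 := hS'
        _ ≤ (X ^ 24) ^ 24 := Nat.pow_le_pow_left hWX.le _
        _ = X ^ 576 := by rw [← pow_mul]
    have hXX : X ≤ X ^ 576 := by
      calc X = X ^ 1 := (pow_one X).symm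
        _ ≤ X ^ 576 := Nat.pow_le_pow_right hX1 (by norm_num)
    have hmul : X ^ 576 + X ^ 576 ≤ X ^ 577 := by
      rw [pow_succ X 576]
      calc X ^ 576 + X ^ 576 = X ^ 576 * 2 := by ring
        _ ≤ X ^ 576 * X := Nat.mul_le_mul_left _ hX2
    generalize X ^ 576 = P at *
    generalize X ^ 577 = P' at *
    constructor
    · have h4 : (X : ℤ) * (kap X t).1 = t.1 - r1 := by linarith
      rw [h4]
      omega
    · have h4 : (X : ℤ) * (kap X t).2 = t.2 - r2 := by linarith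
      rw [h4]
      omega
  calc ∑ t ∈ S, g t
      = ∑ q ∈ S.image (kap X), ∑ t ∈ S.filter (fun t => kap X t = q), g t :=
        (Finset.sum_fiberwise_of_maps_to (fun t ht => mem_image_of_mem _ ht) _).symm
    _ ≤ ∑ q ∈ S.image (kap X), |CB| * (X : ℝ) ^ 2 := by
        refine Finset.sum_le_sum fun q hq => ?_
        refine (fib g hg0 X hX1 S q).trans ?_
        obtain ⟨hb1, hb2⟩ := hbase q hq
        refine (hCB (X * q.1) (X * q.2) X hX1 hb1 hb2).trans ?_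
        exact mul_le_mul_of_nonneg_right (le_abs_self CB) (by positivity)
    _ = |CB| * (((S.image (kap X)).card * X ^ 2 : ℕ) : ℝ) := by
        rw [Finset.sum_const, nsmul_eq_mul]; push_cast; ring
    _ ≤ |CB| * ((C2 * W ^ 2 : ℕ) : ℝ) := by
        refine mul_le_mul_of_nonneg_left ?_ (abs_nonneg _)
        exact_mod_cast hcount
    _ = _ := by push_cast; ring

end Pool.Agent.Y845.Z8
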