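import Pool.Agent.Y723.Z8.StmD
import Pool.Agent.Y845.Z8.CovCore

/-!
# COV8: from the short squares to the region `0 < |D8 t| ≤ W ^ 24`
-/

set_option autoImplicit false

namespace Pool.Agent.Y845.Z8

open Pool.Agent.Y723.Z8

theorem cov8_of (h : S_LC8) : S_COV8 := fun g hg0 hg => cov_core h g hg0 hg

end Pool.Agent.Y845.Z8
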